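import Pool.Agent.N352.PJ.Def

/-!
# Project PJ, part EXS (helper738): irreducible polynomials with trace zero

The existence of arbitrarily many primes is from PP-EXS (helper498).
-/

set_option autoImplicit false

open Polynomial

namespace Pool.Agent.N738.PJ

open Pool.Agent.N352.PJ

/-- irreducible polynomials of every degree -/
theorem exists_irr (F : Type) [Field F] [Finite F] (n : ℕ) (hn : 1 ≤ n) :
    ∃ r : F[X], r.Monic ∧ Irreducible r ∧ r.natDegree = n := by
  have : NeZero n := ⟨by omega⟩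
  obtain ⟨p, hp⟩ := CharP.exists F
  have hpp : p.Prime := (CharP.char_is_prime_or_zero F p).resolve_right (by
    rintro rfl
    exact (CharP.char_ne_zero_of_finite F 0) rfl)
  have : Fact p.Prime := ⟨hpp⟩
  obtain ⟨α, hα⟩ := Field.exists_primitive_element_of_finite_bot F (FiniteField.Extension F p n)
  have hint : IsIntegral F α := Algebra.IsIntegral.isIntegral α
  refine ⟨minpoly F α, minpoly.monic hint, minpoly.irreducible hint, ?_⟩
  rw [← IntermediateField.adjoin.finrank hint, hα, IntermediateField.finrank_top',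
    FiniteField.finrank_extension]

/-- the coefficient after the leading one under translation -/
theorem taylor_coeff_pred {F : Type} [Field F] (f : F[X]) (n : ℕ) (hn : 1 ≤ n) (hm : f.Monic)
    (hd : f.natDegree = n) (c : F) : (taylor c f).coeff (n - 1) = f.coeff (n - 1) + n * c := by
  rw [taylor_coeff, eval_eq_sum_range' (n := 2) (lt_of_le_of_lt (natDegree_hasseDeriv_le f (n - 1))
    (by omega)), Finset.sum_range_succ, Finset.sum_range_one, hasseDeriv_coeff, hasseDeriv_coeff]
  have e : 1 + (n - 1) = n := by omega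
  rw [e, zero_add, Nat.choose_self]
  have h2 : n.choose (n - 1) = n := by
    obtain ⟨m, rfl⟩ : ∃ m, n = m + 1 := ⟨n - 1, by omega⟩
    rw [Nat.add_sub_cancel, Nat.choose_succ_self_right]
  have h3 : f.coeff n = 1 := by rw [← hd]; exact hm.coeff_natDegree
  rw [h2, h3]
  simp

/-- irreducible polynomials with trace zero -/
theorem exists_irr0 (F : Type) [Field F] [Finite F] (n : ℕ) (hn : 1 ≤ n) (hnF : (n : F) ≠ 0) :
    ∃ r : F[X], r.Monic ∧ Irreducible r ∧ r.natDegree = n ∧ r.coeff (n - 1) = 0 := by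
  obtain ⟨f, h1, h2, h3⟩ := exists_irr F n hn
  refine ⟨taylor (-(f.coeff (n - 1)) / n) f, ?_, ?_, ?_, ?_⟩
  · exact h1.comp_X_add_C _
  · have : Irreducible (taylorEquiv (-(f.coeff (n - 1)) / n) f) :=
      (MulEquiv.irreducible_iff (taylorEquiv (-(f.coeff (n - 1)) / n))).mpr h2
    exact this
  · rw [natDegree_taylor, h3]
  · rw [taylor_coeff_pred f n hn h1 h3]
    field_simp
    ring

/-- arbitrarily many monic irreducible polynomials -/
theorem exists_primes (k : Type) [Field k] (r : ℕ) :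
    ∃ S : Finset k[X], S.card = r ∧ ∀ Q ∈ S, Q.Monic ∧ Irreducible Q := by
  classical
  induction r with
  | zero => exact ⟨∅, rfl, by simp⟩
  | succ r ih =>
    obtain ⟨S, hS, hS2⟩ := ih
    have hP : (∏ Q ∈ S, Q).Monic := monic_prod_of_monic _ _ fun Q hQ => (hS2 Q hQ).1
    have hM : (X * ∏ Q ∈ S, Q : k[X]).natDegree = 1 + (∏ Q ∈ S, Q).natDegree := by
      rw [monic_X.natDegree_mul hP, natDegree_X]
    have hu : ¬ IsUnit (X * ∏ Q ∈ S, Q + C 1 : k[X]) := by
      intro h
      have h1 := natDegree_eq_zero_of_isUnit h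
      rw [natDegree_add_C, hM] at h1
      omega
    obtain ⟨g, hg1, hg2, hg3⟩ := exists_monic_irreducible_factor _ hu
    have hgS : g ∉ S := by
      intro h
      have h1 : g ∣ X * ∏ Q ∈ S, Q := (Finset.dvd_prod_of_mem (fun Q => Q) h).mul_left _
      have h2 : g ∣ C 1 := by
        have := dvd_sub hg3 h1
        rwa [add_sub_cancel_left] at this
      exact hg2.not_isUnit (isUnit_of_dvd_one (by rwa [C_1] at h2))
    refine ⟨insert g S, by rw [Finset.card_insert_of_notMem hgS, hS], fun Q hQ => ?_⟩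
    rw [Finset.mem_insert] at hQ
    rcases hQ with rfl | hQ
    · exact ⟨hg1, hg2⟩
    · exact hS2 Q hQ

/-- the polynomial for one prime -/
theorem exists_h (g : ℕ) (k : Type) [Field k] [Finite k] (hg : 1 ≤ g) (hk : ((2 * g : ℕ) : k) ≠ 0)
    (Q : k[X]) (hm : Q.Monic) (hi : Irreducible Q) : ∃ h : k[X][X], h.Monic ∧
      h.natDegree = 2 * g ∧ h.coeff (2 * g - 1) = 0 ∧
      Irreducible (h.map (Ideal.Quotient.mk (Ideal.span {Q}))) := by
  classical
  have hmax : (Ideal.span {Q}).IsMaximal := PrincipalIdealRing.isMaximal_of_irreducible hi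
  let _ : Field (k[X] ⧸ Ideal.span {Q}) := Ideal.Quotient.field _
  have h1 : Module.Finite k (AdjoinRoot Q) := hm.finite_adjoinRoot
  have h2 : Finite (AdjoinRoot Q) := Module.finite_of_finite k
  have hfin : Finite (k[X] ⧸ Ideal.span {Q}) := h2
  set φ := Ideal.Quotient.mk (Ideal.span {Q}) with hφ
  have hF : ((2 * g : ℕ) : k[X] ⧸ Ideal.span {Q}) ≠ 0 := by
    intro h0
    have h3 : (φ.comp C) ((2 * g : ℕ) : k) = 0 := by rw [map_natCast, h0]
    exact hk ((map_eq_zero (φ.comp C)).mp h3)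
  obtain ⟨r, hr1, hr2, hr3, hr4⟩ := exists_irr0 (k[X] ⧸ Ideal.span {Q}) (2 * g) (by omega) hF
  have hsur : ∀ y : k[X] ⧸ Ideal.span {Q}, ∃ x, φ x = y := Ideal.Quotient.mk_surjective
  choose s hs using hsur
  set P : k[X][X] := ∑ i ∈ Finset.range (2 * g - 1), C (s (r.coeff i)) * X ^ i with hP
  have hPd : P.degree < ((2 * g - 1 : ℕ) : WithBot ℕ) := by
    rw [hP]
    refine lt_of_le_of_lt (degree_sum_le _ _) ?_
    rw [Finset.sup_lt_iff (WithBot.bot_lt_coe _)]
    intro i hi
    refine lt_of_le_of_lt (degree_C_mul_X_pow_le _ _) ?_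
    exact_mod_cast Finset.mem_range.mp hi
  have hPd2 : P.degree < ((2 * g : ℕ) : WithBot ℕ) :=
    hPd.trans (by exact_mod_cast (by omega : 2 * g - 1 < 2 * g))
  have hnd : (X ^ (2 * g) + P).natDegree = 2 * g := by
    rw [natDegree_add_eq_left_of_degree_lt (by rw [degree_X_pow]; exact hPd2), natDegree_X_pow]
  refine ⟨X ^ (2 * g) + P, monic_X_pow_add hPd2, hnd, ?_, ?_⟩
  · rw [coeff_add, coeff_X_pow, if_neg (by omega), coeff_eq_zero_of_degree_lt hPd, add_zero]
  · have hmap : (X ^ (2 * g) + P).map φ = r := by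
      conv_rhs => rw [hr1.as_sum, hr3]
      rw [Polynomial.map_add, Polynomial.map_pow, map_X, hP, Polynomial.map_sum]
      congr 1
      have e : 2 * g = (2 * g - 1) + 1 := by omega
      rw [e, Finset.sum_range_succ, ← e, hr4, C_0, zero_mul, add_zero]
      refine Finset.sum_congr rfl fun i _ => ?_
      rw [Polynomial.map_mul, map_C, Polynomial.map_pow, map_X, hs]
    rw [hmap]
    exact hr2

theorem fac_ne {k : Type} [Field k] {g m : ℕ} (h : ((2 * g + 1).factorial : k) ≠ 0) (hm : 1 ≤ m)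
    (hmg : m ≤ 2 * g + 1) : ((m : ℕ) : k) ≠ 0 := by
  intro h0
  obtain ⟨c, hc⟩ := Nat.dvd_factorial (by omega : 0 < m) hmg
  apply h
  rw [hc]
  push_cast
  rw [h0, zero_mul]

theorem exs : S_EXS := by
  intro g k _ _ hg hk m
  classical
  obtain ⟨S, hS, hS2⟩ := exists_primes k m
  have hk2 : ((2 * g : ℕ) : k) ≠ 0 := fac_ne hk (by omega) (by omega)
  refine ⟨S, fun Q => if h : Q.Monic ∧ Irreducible Q then
    (exists_h g k hg hk2 Q h.1 h.2).choose else 0, fun Q hQ => ?_, hS⟩
  have h := hS2 Q hQ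
  have h3 := (exists_h g k hg hk2 Q h.1 h.2).choose_spec
  beta_reduce
  rw [dif_pos h]
  exact ⟨h.1, h.2, h3.1, h3.2.1, h3.2.2.1, h3.2.2.2⟩

theorem gr : S_GR := by
  intro g k _ _ hk
  obtain ⟨r, h1, h2, h3, h4⟩ := exists_irr0 k (2 * g + 1) (by omega) (fac_ne hk (by omega) le_rfl)
  exact ⟨r, h1, h2, h3, by simpa using h4⟩

end Pool.Agent.N738.PJ
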