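import Pool.Agent.N352.PJ.Loc

/-!
# Project PJ, part LAT (helper738): global sections
-/

set_option autoImplicit false

open Polynomial Matrix Module

namespace Pool.Agent.N738.PJ

open Pool.Agent.N352.PJ

variable {n : ℕ} {k : Type} [Field k]

/-- sections -/
abbrev Hh (k : Type) [Field k] {n : ℕ} (a : Fin n → ℕ) : Type := ∀ i, degreeLT k (a i)

theorem finrank_Hh (a : Fin n → ℕ) : finrank k (Hh k a) = ∑ i, a i := by
  have : ∀ i, Module.Finite k (degreeLT k (a i)) := fun i =>
    Module.Finite.equiv (degreeLTEquiv k (a i)).symm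
  have hf : ∀ i, Module.Free k (degreeLT k (a i)) := fun i => inferInstance
  rw [Module.finrank_pi_fintype]
  refine Finset.sum_congr rfl fun i _ => ?_
  rw [LinearEquiv.finrank_eq (degreeLTEquiv k (a i))]
  simp

instance finite_Hh (a : Fin n → ℕ) : Module.Finite k (Hh k a) := by
  have : ∀ i, Module.Finite k (degreeLT k (a i)) := fun i =>
    Module.Finite.equiv (degreeLTEquiv k (a i)).symm
  infer_instance

/-- the embedding -/
noncomputable def emb (a : Fin n → ℕ) : Hh k a →ₗ[k] (Fin n → k[X]) :=
  LinearMap.pi fun i => (Submodule.subtype _).comp (LinearMap.proj i)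

theorem emb_apply (a : Fin n → ℕ) (h : Hh k a) (i : Fin n) : emb a h i = (h i : k[X]) := rfl

theorem emb_inj (a : Fin n → ℕ) : Function.Injective (emb (k := k) a) := by
  intro h h' e
  funext i
  exact Subtype.ext (congrFun e i)

/-- multiplication by the matrix -/
noncomputable def mG (G : Matrix (Fin n) (Fin n) k[X]) : (Fin n → k[X]) →ₗ[k] (Fin n → k[X]) :=
  (Matrix.mulVecLin G).restrictScalars k

theorem mG_apply (G : Matrix (Fin n) (Fin n) k[X]) (x : Fin n → k[X]) : mG G x = G *ᵥ x := rfl

theorem mG_inj (G : Matrix (Fin n) (Fin n) k[X]) (hG : G.det ≠ 0) :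
    Function.Injective (mG G) := by
  intro x y h
  rw [mG_apply, mG_apply] at h
  have h1 : G *ᵥ (x - y) = 0 := by rw [Matrix.mulVec_sub, h, sub_self]
  exact sub_eq_zero.mp (Matrix.eq_zero_of_mulVec_eq_zero hG h1)

/-- multiplication by `P` -/
noncomputable def mP (n : ℕ) (P : k[X]) : (Fin n → k[X]) →ₗ[k] (Fin n → k[X]) :=
  LinearMap.pi fun i => (LinearMap.mulLeft k P).comp (LinearMap.proj i)

/-- reduction modulo `P` -/
noncomputable def red (n : ℕ) (P : k[X]) : (Fin n → k[X]) →ₗ[k] (Fin n → k[X]) :=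
  LinearMap.pi fun i => (modByMonicHom P).comp (LinearMap.proj i)

theorem mem_degreeLT_toNat (q : k[X]) (z : ℤ) (h : q = 0 ∨ (q.natDegree : ℤ) < z) :
    q ∈ degreeLT k z.toNat := by
  rw [mem_degreeLT]
  rcases h with rfl | h
  · rw [degree_zero]; exact WithBot.bot_lt_coe _
  · by_cases hq : q = 0
    · rw [hq, degree_zero]; exact WithBot.bot_lt_coe _
    · rw [degree_eq_natDegree hq]
      exact_mod_cast (by omega : q.natDegree < z.toNat)

theorem natDegree_of_mem {q : k[X]} {z : ℤ} (h : q ∈ degreeLT k z.toNat) (hq : q ≠ 0) :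
    (q.natDegree : ℤ) < z := by
  rw [mem_degreeLT, degree_eq_natDegree hq] at h
  have : q.natDegree < z.toNat := by exact_mod_cast h
  omega

theorem lat : S_LAT := by
  intro n k _ G P w m hP hP1 hdet hG hm
  set a : Fin n → ℕ := fun i => (-w i).toNat with ha
  set b : Fin n → ℕ := fun i => (w i).toNat with hb
  have hab : (∑ i, a i : ℤ) - ∑ i, (b i : ℤ) = m := by
    rw [hm, ← Finset.sum_sub_distrib, ← Finset.sum_neg_distrib]
    refine Finset.sum_congr rfl fun i _ => ?_
    simp only [ha, hb]
    omega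
  -- degrees of G x
  have hGx : ∀ (h : Hh k a) (j : Fin n),
      (G *ᵥ emb a h) j ∈ degreeLT k ((P.natDegree : ℤ) + w j).toNat := by
    intro h j
    simp only [Matrix.mulVec, dotProduct]
    refine Submodule.sum_mem _ fun i _ => mem_degreeLT_toNat _ _ ?_
    by_cases h0 : G j i * emb a h i = 0
    · exact Or.inl h0
    right
    have h1 : G j i ≠ 0 := left_ne_zero_of_mul h0
    have h2 : emb a h i ≠ 0 := right_ne_zero_of_mul h0
    have h3 := (hG j i).resolve_left h1
    have h4 := natDegree_of_mem (h i).2 (by rw [emb_apply] at h2; exact h2)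
    rw [natDegree_mul h1 h2, emb_apply]
    push_cast
    linarith
  -- the pairing
  have hpair : ∀ (h h' : Hh k a), res P (emb a h ⬝ᵥ (G *ᵥ emb a h')) = 0 := by
    intro h h'
    have h1 : emb a h ⬝ᵥ (G *ᵥ emb a h') ∈ degreeLT k ((P.natDegree : ℤ) - 1).toNat := by
      simp only [dotProduct]
      refine Submodule.sum_mem _ fun i _ => mem_degreeLT_toNat _ _ ?_
      by_cases h0 : emb a h i * (G *ᵥ emb a h') i = 0
      · exact Or.inl h0
      right
      have h2 : emb a h i ≠ 0 := left_ne_zero_of_mul h0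
      have h3 : (G *ᵥ emb a h') i ≠ 0 := right_ne_zero_of_mul h0
      have h4 := natDegree_of_mem (h i).2 (by rw [emb_apply] at h2; exact h2)
      have h5 := natDegree_of_mem (hGx h' i) h3
      rw [natDegree_mul h2 h3, emb_apply]
      push_cast
      linarith
    have h2 : ((P.natDegree : ℤ) - 1).toNat = P.natDegree - 1 := by omega
    rw [h2, mem_degreeLT] at h1
    unfold res
    have h3 : (emb a h ⬝ᵥ (G *ᵥ emb a h')) %ₘ P = emb a h ⬝ᵥ (G *ᵥ emb a h') := by
      rw [modByMonic_eq_self_iff hP]
      refine h1.trans ?_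
      rw [degree_eq_natDegree hP.ne_zero]
      exact_mod_cast (by omega : P.natDegree - 1 < P.natDegree)
    rw [h3]
    exact coeff_eq_zero_of_degree_lt h1
  -- the reduction map
  let Φ : Hh k a →ₗ[k] (Fin n → k[X]) := (red n P).comp ((mG G).comp (emb a))
  let Ψ : Hh k b →ₗ[k] (Fin n → k[X]) := (mP n P).comp (emb b)
  have hker : ∀ h ∈ LinearMap.ker Φ, (mG G) (emb a h) ∈ LinearMap.range Ψ := by
    intro h hh
    have h1 : ∀ j, P ∣ (G *ᵥ emb a h) j := by
      intro j
      have := congrFun (LinearMap.mem_ker.mp hh) j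
      exact (modByMonic_eq_zero_iff_dvd hP).mp this
    choose y hy using h1
    have h2 : ∀ j, y j ∈ degreeLT k (b j) := by
      intro j
      refine mem_degreeLT_toNat _ _ ?_
      by_cases h0 : y j = 0
      · exact Or.inl h0
      right
      have h3 : (G *ᵥ emb a h) j ≠ 0 := by
        rw [hy j]; exact mul_ne_zero hP.ne_zero h0
      have h4 := natDegree_of_mem (hGx h j) h3
      rw [hy j, natDegree_mul hP.ne_zero h0] at h4
      push_cast at h4
      linarith
    refine ⟨fun j => ⟨y j, h2 j⟩, ?_⟩
    funext j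
    exact (hy j).symm
  have hk1 : finrank k (LinearMap.ker Φ) ≤ ∑ j, b j := by
    have f1 : finrank k (LinearMap.range Ψ) ≤ ∑ j, b j := by
      rw [← finrank_Hh (k := k) b]
      exact LinearMap.finrank_range_le Ψ
    refine le_trans ?_ f1
    let F : LinearMap.ker Φ →ₗ[k] LinearMap.range Ψ :=
      LinearMap.codRestrict _ (((mG G).comp (emb a)).comp (LinearMap.ker Φ).subtype)
        (fun x => hker x.1 x.2)
    refine LinearMap.finrank_le_finrank_of_injective (f := F) ?_
    intro x y hxy
    have h1 : (mG G) (emb a x.1) = (mG G) (emb a y.1) := congrArg Subtype.val hxy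
    exact Subtype.ext (emb_inj a (mG_inj G hdet h1))
  have hr := LinearMap.finrank_range_add_finrank_ker Φ
  rw [finrank_Hh] at hr
  have hrange : m ≤ finrank k (LinearMap.range Φ) := by
    have h1 : (∑ i, (a i : ℤ)) = ((∑ i, a i : ℕ) : ℤ) := by push_cast; rfl
    have h2 : (∑ i, (b i : ℤ)) = ((∑ i, b i : ℕ) : ℤ) := by push_cast; rfl
    rw [h1, h2] at hab
    omega
  -- choice of the vectors
  let B := Module.finBasis k (LinearMap.range Φ)
  have hsur : ∀ v : LinearMap.range Φ, ∃ h : Hh k a, Φ h = v.1 := fun v => v.2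
  choose s hs using fun c : Fin m => hsur (B (Fin.castLE hrange c))
  have hli : LinearIndependent k (fun c : Fin m => B (Fin.castLE hrange c)) :=
    B.linearIndependent.comp _ (Fin.castLE_injective hrange)
  have hli2 : LinearIndependent k (fun c : Fin m => Φ (s c)) := by
    have h1 := hli.map' (LinearMap.range Φ).subtype (Submodule.ker_subtype _)
    have e : (fun c : Fin m => Φ (s c)) =
        (LinearMap.range Φ).subtype ∘ (fun c : Fin m => B (Fin.castLE hrange c)) :=
      funext fun c => hs c
    rw [e]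
    exact h1
  refine ⟨fun c => emb a (s c), fun c d => hpair _ _, fun c hc => ?_⟩
  have e1 : (∑ d, C (c d) • emb a (s d)) = emb a (∑ d, c d • s d) := by
    rw [map_sum]
    refine Finset.sum_congr rfl fun d _ => ?_
    rw [map_smul]
    funext i
    simp only [Pi.smul_apply, smul_eq_mul]
    rw [Polynomial.smul_eq_C_mul]
  have e2 : Φ (∑ d, c d • s d) = 0 := by
    funext i
    have := hc i
    rw [e1] at this
    exact (modByMonic_eq_zero_iff_dvd hP).mpr this
  rw [map_sum] at e2
  simp only [map_smul] at e2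
  funext d
  exact Fintype.linearIndependent_iff.mp hli2 c e2 d

end Pool.Agent.N738.PJ
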